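import Pool.Agent.Lib_helper14.GC34.Bnd

/-!
# Blocks `cont_Fz`, `diff_Fz`
-/

open scoped BigOperators ComplexOrder Kronecker MatrixOrder
open MeasureTheory Set Matrix

namespace Pool.Agent.Lib_helper66.GC34

open Pool.Agent.GC34 Pool.Agent.RC

variable {ι κ : Type} [Fintype ι] [DecidableEq ι] [Fintype κ] [DecidableEq κ]

theorem low_one (Z : Finset ι) (X : Matrix ι ι ℂ) : low Z 1 X = X := by
  have h : SZ Z 1 = (1 : Matrix ι ι ℂ) := by
    unfold SZ
    rw [← Matrix.diagonal_one]
    congr 1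
    funext i
    simp
  unfold low
  rw [h, one_mul, mul_one]

/-- the matrix under the inverse is a unit -/
theorem det_ne {A B : Matrix ι ι ℂ} {r lam : ℝ} (hr : 1 < r) (hV : Strict A (r • B))
    (hl : |lam| * r < 1) (Z : Finset ι) (t : ℝ) {σ : ℝ} (hσ : 0 < σ) {z : ℂ} (hz : ‖z‖ ≤ r) :
    ((low Z t A + σ • (1 : Matrix ι ι ℂ)) +
        z • (low Z t B + (lam * σ) • (1 : Matrix ι ι ℂ))).det ≠ 0 := by
  have hc : 0 < σ * (1 - |lam| * r) := mul_pos hσ (by linarith)
  have h := (Lib_helper14.GC34.norm_inv_le hc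
    (fun w => Lib_helper14.GC34.range_N hr hV hl Z t hσ hz w)).1
  intro h0
  have h1 := congrArg Matrix.det h
  rw [Matrix.det_mul, h0, zero_mul, Matrix.det_one] at h1
  exact zero_ne_one h1

/-- the base of the powers stays in the right half plane -/
theorem base_slit {r lam : ℝ} (hl : |lam| * r < 1) {z : ℂ} (hz : ‖z‖ ≤ r) :
    (1 + (lam : ℂ) * z) ∈ Complex.slitPlane := by
  left
  have h1 : |z.re| ≤ r := (Complex.abs_re_le_norm z).trans hz
  have h3 : |lam * z.re| ≤ |lam| * r := by
    rw [abs_mul]; gcongr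
  have h4 := neg_abs_le (lam * z.re)
  have h5 : (1 + (lam : ℂ) * z).re = 1 + lam * z.re := by simp
  rw [h5]
  linarith

theorem quad_inv (N : Matrix ι ι ℂ) (v : ι → ℂ) :
    star v ⬝ᵥ (N⁻¹ *ᵥ v) = (N.det)⁻¹ * (star v ⬝ᵥ (N.adjugate *ᵥ v)) := by
  rw [Matrix.inv_def, Matrix.smul_mulVec, dotProduct_smul, smul_eq_mul, Ring.inverse_eq_inv']

theorem continuous_SZ (Z : Finset ι) : Continuous fun t : ℝ => SZ Z t := by
  unfold SZ
  apply Continuous.matrix_diagonal
  apply continuous_pi
  intro i
  by_cases h : i ∈ Z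
  · simp only [h, if_true]
    exact Complex.continuous_ofReal
  · simp only [h, if_false]
    exact continuous_const

theorem continuous_low (Z : Finset ι) (X : Matrix ι ι ℂ) : Continuous fun t : ℝ => low Z t X := by
  unfold low
  exact ((continuous_SZ Z).matrix_mul continuous_const).matrix_mul (continuous_SZ Z)

theorem cont_Fz {p : ℝ} (h3 : 3 < p) (h4 : p < 4) {n : ℕ}
    {A B : Matrix (Fin (n + 1)) (Fin (n + 1)) ℂ} {r lam : ℝ} (hr : 1 < r)
    (hV : Strict A (r • B)) (hl : |lam| * r < 1) :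
    ContinuousOn (fun x : ℝ × ℝ × ℂ =>
      Fz p (low {0} x.1 A) (low {0} x.1 B) lam (low {0} x.1 A *ᵥ e0) x.2.1 x.2.2)
      (Ioc 0 1 ×ˢ Ioi 0 ×ˢ Metric.closedBall 0 r) := by
  set S : Set (ℝ × ℝ × ℂ) := Ioc 0 1 ×ˢ Ioi 0 ×ˢ Metric.closedBall 0 r with hS
  have hσ : ∀ x ∈ S, 0 < x.2.1 := fun x hx => hx.2.1
  have hz : ∀ x ∈ S, ‖x.2.2‖ ≤ r := fun x hx => by
    have := hx.2.2
    simpa using this
  have cA : Continuous fun x : ℝ × ℝ × ℂ => low ({0} : Finset (Fin (n + 1))) x.1 A :=
    (continuous_low _ A).comp continuous_fst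
  have cB : Continuous fun x : ℝ × ℝ × ℂ => low ({0} : Finset (Fin (n + 1))) x.1 B :=
    (continuous_low _ B).comp continuous_fst
  have cσ : Continuous fun x : ℝ × ℝ × ℂ => x.2.1 := continuous_fst.comp continuous_snd
  have cσ' : Continuous fun x : ℝ × ℝ × ℂ => (x.2.1 : ℂ) := Complex.continuous_ofReal.comp cσ
  have cz : Continuous fun x : ℝ × ℝ × ℂ => x.2.2 := continuous_snd.comp continuous_snd
  have cv : Continuous fun x : ℝ × ℝ × ℂ => low ({0} : Finset (Fin (n + 1))) x.1 A *ᵥ e0 :=
    cA.matrix_mulVec continuous_const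
  have csv : Continuous fun x : ℝ × ℝ × ℂ =>
      star (low ({0} : Finset (Fin (n + 1))) x.1 A *ᵥ e0) := cv.star
  have cN : Continuous fun x : ℝ × ℝ × ℂ =>
      (low ({0} : Finset (Fin (n + 1))) x.1 A + x.2.1 • (1 : Matrix (Fin (n + 1)) (Fin (n + 1)) ℂ))
        + x.2.2 • (low ({0} : Finset (Fin (n + 1))) x.1 B +
          (lam * x.2.1) • (1 : Matrix (Fin (n + 1)) (Fin (n + 1)) ℂ)) :=
    (cA.add (cσ.smul continuous_const)).add
      (cz.smul (cB.add ((continuous_const.mul cσ).smul continuous_const)))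
  have cbase : Continuous fun x : ℝ × ℝ × ℂ => 1 + (lam : ℂ) * x.2.2 :=
    continuous_const.add (continuous_const.mul cz)
  have hbase : ∀ x ∈ S, 1 + (lam : ℂ) * x.2.2 ∈ Complex.slitPlane :=
    fun x hx => base_slit hl (hz x hx)
  have hσne : ∀ x ∈ S, (x.2.1 : ℂ) ≠ 0 := fun x hx => by exact_mod_cast (hσ x hx).ne'
  unfold Fz
  simp_rw [quad_inv]
  apply ContinuousOn.add
  · apply ContinuousOn.sub
    · apply ContinuousOn.mul
      · exact cbase.continuousOn.cpow_const hbase
      · apply ContinuousOn.mul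
        · apply ContinuousOn.inv₀
          · exact cN.matrix_det.continuousOn
          · intro x hx
            exact det_ne hr hV hl _ _ (hσ x hx) (hz x hx)
        · exact (csv.dotProduct (cN.matrix_adjugate.matrix_mulVec cv)).continuousOn
    · apply ContinuousOn.div
      · apply ContinuousOn.mul
        · exact cbase.continuousOn.cpow_const hbase
        · exact (csv.dotProduct cv).continuousOn
      · exact cσ'.continuousOn
      · exact hσne
  · apply ContinuousOn.div
    · apply ContinuousOn.mul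
      · exact cbase.continuousOn.cpow_const hbase
      · exact (csv.dotProduct ((cA.add (cz.smul cB)).matrix_mulVec cv)).continuousOn
    · exact (cσ'.pow 2).continuousOn
    · intro x hx
      exact pow_ne_zero 2 (hσne x hx)

/-- determinants of matrices with differentiable entries -/
theorem diff_det {s : Set ℂ} {M : ℂ → Matrix ι ι ℂ}
    (h : ∀ i j, DifferentiableOn ℂ (fun z => M z i j) s) :
    DifferentiableOn ℂ (fun z => (M z).det) s := by
  simp_rw [Matrix.det_apply]
  apply DifferentiableOn.fun_sum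
  intro π _
  apply DifferentiableOn.const_smul
  apply DifferentiableOn.fun_finsetProd
  intro i _
  exact h (π i) i

/-- adjugates of matrices with differentiable entries -/
theorem diff_adjugate {s : Set ℂ} {M : ℂ → Matrix ι ι ℂ}
    (h : ∀ i j, DifferentiableOn ℂ (fun z => M z i j) s) (i j : ι) :
    DifferentiableOn ℂ (fun z => (M z).adjugate i j) s := by
  simp_rw [Matrix.adjugate_apply]
  apply diff_det
  intro k l
  by_cases hk : k = j
  · subst hk
    simp only [Matrix.updateRow_self]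
    exact differentiableOn_const _
  · simp only [Matrix.updateRow_ne hk]
    exact h k l

/-- fixed `V`: `F(σ, ·)` is differentiable on the closed disc -/
theorem diff_Fz {p : ℝ} {A B : Matrix ι ι ℂ} {r lam σ : ℝ} (hr : 1 < r)
    (hV : Strict A (r • B)) (hl : |lam| * r < 1) (hσ : 0 < σ) (v : ι → ℂ) :
    DifferentiableOn ℂ (Fz p A B lam v σ) (Metric.closedBall 0 r) := by
  have hz : ∀ z ∈ Metric.closedBall (0 : ℂ) r, ‖z‖ ≤ r := fun z hz => by simpa using hz
  have hN : ∀ z ∈ Metric.closedBall (0 : ℂ) r,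
      ((A + σ • (1 : Matrix ι ι ℂ)) + z • (B + (lam * σ) • (1 : Matrix ι ι ℂ))).det ≠ 0 := by
    intro z h
    have := det_ne hr hV hl (∅ : Finset ι) 1 hσ (hz z h)
    rwa [low_one, low_one] at this
  have dz : DifferentiableOn ℂ (fun z : ℂ => z) (Metric.closedBall (0 : ℂ) r) :=
    differentiableOn_id
  have dN : ∀ i j, DifferentiableOn ℂ (fun z : ℂ => ((A + σ • (1 : Matrix ι ι ℂ)) +
      z • (B + (lam * σ) • (1 : Matrix ι ι ℂ))) i j) (Metric.closedBall (0 : ℂ) r) := by
    intro i j
    simp only [Matrix.add_apply, Matrix.smul_apply, smul_eq_mul]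
    exact (differentiableOn_const _).add (dz.mul (differentiableOn_const _))
  have dAB : ∀ i j, DifferentiableOn ℂ (fun z : ℂ => (A + z • B) i j)
      (Metric.closedBall (0 : ℂ) r) := by
    intro i j
    simp only [Matrix.add_apply, Matrix.smul_apply, smul_eq_mul]
    exact (differentiableOn_const _).add (dz.mul (differentiableOn_const _))
  have dbase : DifferentiableOn ℂ (fun z : ℂ => 1 + (lam : ℂ) * z) (Metric.closedBall (0 : ℂ) r) :=
    (differentiableOn_const _).add ((differentiableOn_const _).mul dz)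
  have hbase : ∀ z ∈ Metric.closedBall (0 : ℂ) r, 1 + (lam : ℂ) * z ∈ Complex.slitPlane :=
    fun z h => base_slit hl (hz z h)
  have dq : ∀ {M : ℂ → Matrix ι ι ℂ},
      (∀ i j, DifferentiableOn ℂ (fun z => M z i j) (Metric.closedBall (0 : ℂ) r)) →
      DifferentiableOn ℂ (fun z => star v ⬝ᵥ (M z *ᵥ v)) (Metric.closedBall (0 : ℂ) r) := by
    intro M hM
    simp only [dotProduct, Matrix.mulVec]
    apply DifferentiableOn.fun_sum
    intro i _
    apply DifferentiableOn.const_mul
    apply DifferentiableOn.fun_sum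
    intro j _
    exact (hM i j).mul_const _
  have e : Fz p A B lam v σ = fun z : ℂ =>
      (1 + lam * z) ^ ((p : ℂ) + 1) *
        ((((A + σ • (1 : Matrix ι ι ℂ)) + z • (B + (lam * σ) • (1 : Matrix ι ι ℂ))).det)⁻¹ *
          (star v ⬝ᵥ (((A + σ • (1 : Matrix ι ι ℂ)) +
            z • (B + (lam * σ) • (1 : Matrix ι ι ℂ))).adjugate *ᵥ v)))
      - (1 + lam * z) ^ (p : ℂ) * (star v ⬝ᵥ v) / σ
      + (1 + lam * z) ^ ((p : ℂ) - 1) * (star v ⬝ᵥ ((A + z • B) *ᵥ v)) / σ ^ 2 := by
    funext z
    unfold Fz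
    rw [quad_inv]
  rw [e]
  apply DifferentiableOn.add
  · apply DifferentiableOn.sub
    · apply DifferentiableOn.mul
      · exact dbase.cpow_const hbase
      · apply DifferentiableOn.mul
        · exact (diff_det dN).inv hN
        · exact dq (diff_adjugate dN)
    · apply DifferentiableOn.div_const
      apply DifferentiableOn.mul_const
      exact dbase.cpow_const hbase
  · apply DifferentiableOn.div_const
    apply DifferentiableOn.mul
    · exact dbase.cpow_const hbase
    · exact dq dAB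

end Pool.Agent.Lib_helper66.GC34
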